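import Mathlib
import Pool.Agent.H.MP_f0f681_an.D

namespace Pool.Agent.Results.MP_f0f681_an.NotConj
open Pool.Agent.H.MP_f0f681_an (BG weakStar)

theorem result : ∃ (G : Type) (_ : Group G) (B : Subalgebra ℂ (G → ℂ)),
    (B : Set (G → ℂ)) ⊆ BG G ∧ @IsClosed _ (weakStar G) {f : BG G | f.1 ∈ B} ∧
    (∀ f ∈ B, ∀ s : G, (fun x => f (s * x)) ∈ B ∧ (fun x => f (x * s)) ∈ B) ∧
    ∃ f ∈ B, star f ∉ B := by
  open Pool.Agent.H.MP_f0f681_an in
  exact ⟨Pool.Agent.H.MP_f0f681_an.G, inferInstance, ClA S S_sub S_one S_mul, fun _ hf => hf.1,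
    Cl_closed S, fun _ hf a => inv hf a, final⟩

end Pool.Agent.Results.MP_f0f681_an.NotConj
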